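import Pool.Agent.W367.SN.NV

set_option autoImplicit false
open CategoryTheory

namespace Pool.Agent.V11205.SubN
open Pool.Agent.W367.SN

/-- an invariant of subnormal chains -/
theorem chain_inv {G : Type} [Group G] (c : ℕ → Subgroup G) (x : G) (P : G → Prop)
    (hP : ∀ h, ¬ P h → ¬ P (h * x * h⁻¹ * x⁻¹)) (hx : x ∈ c 0) (h0 : ∀ h ∈ c 0, P h) :
    ∀ n : ℕ, (∀ i < n, c i ≤ c (i + 1) ∧ ((c i).subgroupOf (c (i + 1))).Normal) →
      x ∈ c n ∧ ∀ h ∈ c n, P h := by
  intro n
  induction n with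
  | zero => intro _; exact ⟨hx, h0⟩
  | succ n ih =>
    intro hc
    obtain ⟨h1, h2⟩ := ih (fun i hi => hc i (by omega))
    obtain ⟨hle, hn⟩ := hc n (by omega)
    refine ⟨hle h1, fun h hh => ?_⟩
    by_contra hcon
    apply hP h hcon
    apply h2
    apply Subgroup.mul_mem _ _ (Subgroup.inv_mem _ h1)
    have := hn.conj_mem ⟨x, hle h1⟩ (by rw [Subgroup.mem_subgroupOf]; exact h1) ⟨h, hh⟩
    rw [Subgroup.mem_subgroupOf] at this
    exact this

/-- a cyclic subgroup of an abelian subgroup `A` is subnormal in the group it generates with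
an element normalizing `A` -/
theorem chain_abelian {G : Type} [Group G] (y g : G) (A : Subgroup G)
    (hA : ∀ a ∈ A, ∀ b ∈ A, a * b = b * a) (hy : y ∈ A) (hg : ∀ a ∈ A, g * a * g⁻¹ ∈ A)
    (hg' : ∀ a ∈ A, g⁻¹ * a * g ∈ A) :
    ∃ n : ℕ, ∃ c : ℕ → Subgroup G, c 0 = Subgroup.zpowers y ∧ c n = Subgroup.closure {y, g} ∧
      ∀ i < n, c i ≤ c (i + 1) ∧ ((c i).subgroupOf (c (i + 1))).Normal := by
  have hyL : y ∈ Subgroup.closure ({y, g} : Set G) := Subgroup.subset_closure (by simp)
  have hLN : Subgroup.closure ({y, g} : Set G) ≤ Subgroup.normalizer (A : Set G) := by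
    rw [Subgroup.closure_le]
    rintro u (rfl | rfl)
    · exact Subgroup.le_normalizer hy
    · rw [SetLike.mem_coe, Subgroup.mem_normalizer_iff]
      intro h
      refine ⟨hg h, fun h1 => ?_⟩
      have h2 := hg' _ h1
      have h3 : u⁻¹ * (u * h * u⁻¹) * u = h := by group
      rwa [h3] at h2
  refine ⟨2, fun i => if i = 0 then Subgroup.zpowers y else if i = 1 then
    A ⊓ Subgroup.closure {y, g} else Subgroup.closure {y, g}, rfl, rfl, ?_⟩
  intro i hi
  have hi' : i = 0 ∨ i = 1 := by omega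
  rcases hi' with rfl | rfl
  · have e0 : (fun i : ℕ => if i = 0 then Subgroup.zpowers y else if i = 1 then
      A ⊓ Subgroup.closure {y, g} else Subgroup.closure {y, g}) 0 = Subgroup.zpowers y := rfl
    have e1 : (fun i : ℕ => if i = 0 then Subgroup.zpowers y else if i = 1 then
      A ⊓ Subgroup.closure {y, g} else Subgroup.closure {y, g}) (0 + 1) =
        A ⊓ Subgroup.closure {y, g} := rfl
    rw [e0, e1]
    refine ⟨by rw [Subgroup.zpowers_le]; exact ⟨hy, hyL⟩, ⟨fun u hu h => ?_⟩⟩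
    rw [Subgroup.mem_subgroupOf] at hu ⊢
    have hh := h.2
    rw [Subgroup.mem_inf] at hh
    have hu' := (u.2 : (u : G) ∈ A ⊓ Subgroup.closure {y, g})
    rw [Subgroup.mem_inf] at hu'
    have h1 := hA h hh.1 u hu'.1
    change (h : G) * (u : G) * (h : G)⁻¹ ∈ _
    rw [h1, mul_inv_cancel_right]
    exact hu
  · have e0 : (fun i : ℕ => if i = 0 then Subgroup.zpowers y else if i = 1 then
      A ⊓ Subgroup.closure {y, g} else Subgroup.closure {y, g}) 1 =
        A ⊓ Subgroup.closure {y, g} := rfl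
    have e1 : (fun i : ℕ => if i = 0 then Subgroup.zpowers y else if i = 1 then
      A ⊓ Subgroup.closure {y, g} else Subgroup.closure {y, g}) (1 + 1) =
        Subgroup.closure {y, g} := rfl
    rw [e0, e1]
    refine ⟨inf_le_right, ⟨fun u hu h => ?_⟩⟩
    rw [Subgroup.mem_subgroupOf, Subgroup.mem_inf] at hu ⊢
    refine ⟨?_, (h * u * h⁻¹).2⟩
    have := (Subgroup.mem_normalizer_iff.1 (hLN h.2) (u : G)).1 hu.1
    exact this

/-- the version for an element normalizing `⟨y⟩` -/
theorem chain_normal {G : Type} [Group G] (y g : G) (hg : g * y * g⁻¹ ∈ Subgroup.zpowers y)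
    (hg' : g⁻¹ * y * g ∈ Subgroup.zpowers y) :
    ∃ n : ℕ, ∃ c : ℕ → Subgroup G, c 0 = Subgroup.zpowers y ∧ c n = Subgroup.closure {y, g} ∧
      ∀ i < n, c i ≤ c (i + 1) ∧ ((c i).subgroupOf (c (i + 1))).Normal := by
  apply chain_abelian y g (Subgroup.zpowers y)
  · rintro _ ⟨k, rfl⟩ _ ⟨l, rfl⟩
    change y ^ k * y ^ l = y ^ l * y ^ k
    rw [← zpow_add, ← zpow_add, add_comm]
  · exact Subgroup.mem_zpowers y
  · rintro _ ⟨k, rfl⟩
    change g * y ^ k * g⁻¹ ∈ _
    rw [← conj_zpow]
    exact Subgroup.zpow_mem _ hg k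
  · rintro _ ⟨k, rfl⟩
    change g⁻¹ * y ^ k * g ∈ _
    have : g⁻¹ * y ^ k * g = (g⁻¹ * y * g) ^ k := by
      have := conj_zpow (i := k) (a := g⁻¹) (b := y)
      rw [inv_inv] at this
      exact this.symm
    rw [this]
    exact Subgroup.zpow_mem _ hg' k

open Matrix in
/-- a rank one criterion -/
theorem trace_sq_eq_one {n : ℕ} (P : Matrix (Fin n) (Fin n) ℂ) (hP : P * P = P) (hne : P ≠ 0)
    (h : ∀ X : Matrix (Fin n) (Fin n) ℂ, ∃ y : ℂ, P * X * P = y • P) : P.trace * P.trace = 1 := by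
  have key : ∀ i j, ∃ y : ℂ, (∀ k l, P k i * P j l = y * P k l) := by
    intro i j
    obtain ⟨y, hy⟩ := h (Matrix.single i j 1)
    refine ⟨y, fun k l => ?_⟩
    have := congrFun (congrFun hy k) l
    rw [Matrix.smul_apply, smul_eq_mul] at this
    rw [← this, Matrix.mul_apply, Finset.sum_eq_single j]
    · congr 1
      rw [Matrix.mul_apply, Finset.sum_eq_single i]
      · simp
      · intro b _ hb
        rw [Matrix.single_apply_of_row_ne hb.symm, mul_zero]
      · intro hh; exact absurd (Finset.mem_univ _) hh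
    · intro b _ hb
      have : (P * Matrix.single i j (1 : ℂ)) k b = 0 := by
        rw [Matrix.mul_apply]
        apply Finset.sum_eq_zero
        intro c _
        rw [Matrix.single_apply, if_neg (fun hh => hb hh.2.symm), mul_zero]
      rw [this, zero_mul]
    · intro hh; exact absurd (Finset.mem_univ _) hh
  choose y hy using key
  have h1 : ∀ i j, P j i = y i j * P.trace := by
    intro i j
    have e1 : ∑ k, P k i * P j k = ∑ k, y i j * P k k := Finset.sum_congr rfl (fun k _ => hy i j k k)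
    rw [← Finset.mul_sum] at e1
    have e2 : ∑ k, P k i * P j k = P j i := by
      have := congrFun (congrFun hP j) i
      rw [Matrix.mul_apply] at this
      rw [← this]
      exact Finset.sum_congr rfl (fun k _ => mul_comm _ _)
    rw [e2] at e1
    exact e1
  have h2 : ∀ j l, P.trace * P j l * P.trace = P j l := by
    intro j l
    have e1 : ∑ i, P i i * P j l * P.trace = ∑ i, P j i * P i l := by
      apply Finset.sum_congr rfl
      intro i _
      rw [hy i j i l, h1 i j]
      ring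
    rw [← Finset.sum_mul, ← Finset.sum_mul] at e1
    have e2 : ∑ i, P j i * P i l = P j l := by
      have := congrFun (congrFun hP j) l
      rwa [Matrix.mul_apply] at this
    rw [e2] at e1
    exact e1
  by_contra hcon
  apply hne
  ext j l
  have := h2 j l
  have h3 : (P.trace * P.trace - 1) * P j l = 0 := by linear_combination this
  rcases mul_eq_zero.1 h3 with h4 | h4
  · exact absurd (sub_eq_zero.1 h4) hcon
  · exact h4

/-- scalar matrices only: dimension one -/
theorem dim_one {n : ℕ} (h : ∀ X : Matrix (Fin n) (Fin n) ℂ, ∃ c : ℂ, X = c • 1) : n ≤ 1 := by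
  by_contra hcon
  have h0 : 0 < n := by omega
  have h1 : 1 < n := by omega
  obtain ⟨c, hc⟩ := h (Matrix.single ⟨0, h0⟩ ⟨0, h0⟩ 1)
  have e1 := congrFun (congrFun hc ⟨0, h0⟩) ⟨0, h0⟩
  have e2 := congrFun (congrFun hc ⟨1, h1⟩) ⟨1, h1⟩
  simp at e1 e2
  rw [← e1] at e2
  exact one_ne_zero e2.symm

end Pool.Agent.V11205.SubN
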