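import Pool.Agent.V11205.SubN.Core

set_option autoImplicit false
open CategoryTheory

namespace Pool.Agent.V11205.SubN
open Pool.Agent.W367.SN

theorem one_scalar {n : ℕ} (hn : 0 < n) {a b : ℂ}
    (h : a • (1 : Matrix (Fin n) (Fin n) ℂ) = b • 1) : a = b := by
  have := congrFun (congrFun h ⟨0, hn⟩) ⟨0, hn⟩
  simpa using this

/-- the two dimensional case -/
theorem dim_two {n : ℕ} (hn : 0 < n) (D W : Matrix (Fin n) (Fin n) ℂ) (hW : W * W = 1)
    (hD : D * D = (-3 : ℂ) • 1) (hWD : W * D = - (D * W))
    (h : ∀ Y : Matrix (Fin n) (Fin n) ℂ, Y * D = D * Y → Y * W = W * Y → ∃ c : ℂ, Y = c • 1) :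
    n = 2 := by
  obtain ⟨P, hP⟩ : ∃ P : Matrix (Fin n) (Fin n) ℂ, P = (1 / 2 : ℂ) • (1 + W) := ⟨_, rfl⟩
  have hWP : W * P = P := by
    rw [hP, mul_smul_comm, mul_add, mul_one, hW, add_comm]
  have hPW : P * W = P := by
    rw [hP, smul_mul_assoc, add_mul, one_mul, hW, add_comm]
  have hPP : P * P = P := by
    have : P * P = (1 / 2 : ℂ) • (P + W * P) := by
      nth_rewrite 1 [hP]
      rw [smul_mul_assoc, add_mul, one_mul]
    rw [this, hWP]
    module
  have hDW : D * W = -(W * D) := by rw [hWD, neg_neg]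
  have hPDP : P * D * P = 0 := by
    have e1 : P * D = (1 / 2 : ℂ) • (D - D * W) := by
      rw [hP, smul_mul_assoc, add_mul, one_mul, hWD, sub_eq_add_neg]
    rw [e1, smul_mul_assoc, sub_mul, mul_assoc D W P, hWP, sub_self, smul_zero]
  have htrW : W.trace = 0 := by
    have e1 : (D * W * D).trace = (D * (D * W)).trace := by
      rw [Matrix.trace_mul_comm (D * W) D]
    have e2 : D * W * D = (3 : ℂ) • W := by
      rw [mul_assoc, hWD, mul_neg, ← mul_assoc, hD, smul_mul_assoc, one_mul]
      module
    have e3 : D * (D * W) = (-3 : ℂ) • W := by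
      rw [← mul_assoc, hD, smul_mul_assoc, one_mul]
    rw [e2, e3, Matrix.trace_smul, Matrix.trace_smul, smul_eq_mul, smul_eq_mul] at e1
    linear_combination e1 / 6
  have hne : P ≠ 0 := by
    intro h0
    have e1 : W = -1 := by
      have : (1 : Matrix (Fin n) (Fin n) ℂ) + W = (2 : ℂ) • P := by
        rw [hP, smul_smul]; norm_num
      rw [h0, smul_zero] at this
      exact (neg_eq_of_add_eq_zero_right this).symm
    rw [e1] at hWD
    have e2 : D = 0 := by
      have e3 : -D = D := by simpa using hWD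
      have e4 : D = (1 / 2 : ℂ) • (D - (-D)) := by module
      rw [e4, e3, sub_self, smul_zero]
    rw [e2, mul_zero] at hD
    have := one_scalar hn (a := 0) (b := -3) (by rw [zero_smul]; exact hD)
    norm_num at this
  have hrank : ∀ X : Matrix (Fin n) (Fin n) ℂ, ∃ y : ℂ, P * X * P = y • P := by
    intro X
    set Z : Matrix (Fin n) (Fin n) ℂ := P * X * P with hZ
    have hWZ : W * Z = Z := by rw [hZ, ← mul_assoc, ← mul_assoc, hWP]
    have hZW : Z * W = Z := by rw [hZ, mul_assoc, hPW]
    have hPZ : P * Z = Z := by rw [hZ, ← mul_assoc, ← mul_assoc, hPP]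
    have hZP : Z * P = Z := by rw [hZ, mul_assoc, hPP]
    obtain ⟨y, hy⟩ := h (Z - (1 / 3 : ℂ) • (D * Z * D)) (by
        have e1 : D * Z * D * D = (-3 : ℂ) • (D * Z) := by
          rw [mul_assoc (D * Z) D D, hD, mul_smul_comm, mul_one]
        have e2 : D * (D * Z * D) = (-3 : ℂ) • (Z * D) := by
          rw [← mul_assoc, ← mul_assoc, hD, smul_mul_assoc, smul_mul_assoc, one_mul]
        rw [sub_mul, mul_sub, smul_mul_assoc, mul_smul_comm, e1, e2]
        module) (by
        have e1 : D * Z * D * W = -(D * Z * D) := by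
          rw [mul_assoc (D * Z) D W, hDW, mul_neg, ← mul_assoc, mul_assoc D Z W, hZW]
        have e2 : W * (D * Z * D) = -(D * Z * D) := by
          rw [← mul_assoc, ← mul_assoc, hWD, neg_mul, neg_mul, mul_assoc D W Z, hWZ]
        rw [sub_mul, mul_sub, smul_mul_assoc, mul_smul_comm, e1, e2, hZW, hWZ])
    refine ⟨y, ?_⟩
    have e1 : P * (Z - (1 / 3 : ℂ) • (D * Z * D)) * P = y • P := by
      rw [hy, mul_smul_comm, mul_one, smul_mul_assoc, hPP]
    have e2 : P * (D * Z * D) * P = 0 := by
      have : P * (D * Z * D) * P = P * D * Z * D * P := by simp only [mul_assoc]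
      rw [this]
      have e3 : P * D * Z = 0 := by
        have : P * D * Z = P * D * P * (X * P) := by rw [hZ]; simp only [mul_assoc]
        rw [this, hPDP, zero_mul]
      rw [e3, zero_mul, zero_mul]
    rw [mul_sub, sub_mul, mul_smul_comm, smul_mul_assoc, e2, smul_zero, sub_zero, hPZ, hZP] at e1
    exact e1
  have hfin := trace_sq_eq_one P hPP hne hrank
  have htrP : P.trace = n / 2 := by
    rw [hP, Matrix.trace_smul, Matrix.trace_add, Matrix.trace_one, htrW, Fintype.card_fin,
      smul_eq_mul, add_zero]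
    ring
  rw [htrP] at hfin
  have h4 : (n : ℂ) * n = 4 := by linear_combination 4 * hfin
  have h5 : n * n = 4 := by exact_mod_cast h4
  nlinarith [h5, Nat.mul_self_inj (m := n) (n := 2), (Nat.mul_self_inj (m := n) (n := 2)).1 h5]

/-- values of the irreducible characters of a group `Z × S_3`-like -/
theorem char_value {Γ : Type} [Group Γ] {ψ : Γ → ℂ} (hψ : ψ ∈ IrrC Γ) (s t w : Γ)
    (ht : t * t * t = 1) (hw : w * w = 1) (hwt : w * t * w = t * t)
    (hs : s * s = 1) (hsc : ∀ g, s * g = g * s)
    (hdec : ∀ g : Γ, ∃ z : Γ, (∀ h, z * h = h * z) ∧ ∃ j k : ℕ, g = z * t ^ j * w ^ k) :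
    ψ (s * t) = 1 ∨ ψ (s * t) = -1 := by
  obtain ⟨n, hn, ρ, hρ, hcomm⟩ := exists_matrix hψ
  set T := ρ t with hT
  set W := ρ w with hWdef
  set U := T * T with hU
  have hTTT : T * T * T = 1 := by rw [hT, ← map_mul, ← map_mul, ht, map_one]
  have hW : W * W = 1 := by rw [hWdef, ← map_mul, hw, map_one]
  have hWTW : W * T * W = U := by rw [hU, hT, hWdef, ← map_mul, ← map_mul, ← map_mul, hwt]
  have hUT : U * T = 1 := hTTT
  have hTU : T * U = 1 := by rw [hU, ← mul_assoc]; exact hTTT
  have hUU : U * U = T := by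
    have : U * U = T * U * T := by rw [hU]; simp only [mul_assoc]
    rw [this, hTU, one_mul]
  have hWT : W * T = U * W := by
    rw [← hWTW, mul_assoc, hW, mul_one]
  have hWU : W * U = T * W := by
    have : W * U = W * T * T := by rw [hU]; simp only [mul_assoc]
    rw [this, hWT, mul_assoc, hWT, ← mul_assoc, hUU]
  have hcen : ∀ z : Γ, (∀ h, z * h = h * z) → ∃ c : ℂ, ρ z = c • 1 := by
    intro z hz
    apply hcomm
    intro g
    rw [← map_mul, hz, map_mul]
  have hgood : ∀ Y : Matrix (Fin n) (Fin n) ℂ, Y * T = T * Y → Y * W = W * Y →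
      ∃ c : ℂ, Y = c • 1 := by
    intro Y hYT hYW
    apply hcomm
    intro g
    obtain ⟨z, hz, j, k, rfl⟩ := hdec g
    obtain ⟨c, hc⟩ := hcen z hz
    rw [map_mul, map_mul, map_pow, map_pow, hc, smul_mul_assoc, one_mul]
    have h1 : Commute Y (T ^ j) := Commute.pow_right hYT j
    have h2 : Commute Y (W ^ k) := Commute.pow_right hYW k
    have h3 : Commute Y (c • T ^ j) := Commute.smul_right h1 c
    exact (h3.mul_right h2).eq
  have hS1 : (T + U) * T = T * (T + U) := by rw [add_mul, mul_add, hUT, hTU]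
  have hS2 : (T + U) * W = W * (T + U) := by
    rw [add_mul, mul_add, hWT, hWU, add_comm]
  obtain ⟨c, hc⟩ := hgood (T + U) hS1 hS2
  have hcc : c * c = c + 2 := by
    have e1 : (T + U) * (T + U) = (T + U) + (2 : ℂ) • 1 := by
      rw [add_mul, mul_add, mul_add, hTU, hUT, hUU]
      change U + 1 + (1 + T) = _
      module
    rw [hc, smul_mul_smul_comm, one_mul, ← add_smul] at e1
    exact one_scalar hn e1
  obtain ⟨e, he⟩ := hcen s hsc
  have hee : e * e = 1 := by
    have : ρ s * ρ s = 1 := by rw [← map_mul, hs, map_one]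
    rw [he, smul_mul_smul_comm, one_mul] at this
    exact one_scalar hn (by rw [this, one_smul])
  have hval : ψ (s * t) = e * T.trace := by
    rw [hρ, map_mul, he, smul_mul_assoc, one_mul, Matrix.trace_smul, smul_eq_mul]
  have htrU : U.trace = T.trace := by
    rw [← hWTW, Matrix.trace_mul_comm, ← mul_assoc, hW, one_mul]
  have htr : 2 * T.trace = c * n := by
    have := congrArg Matrix.trace hc
    rw [Matrix.trace_add, htrU, Matrix.trace_smul, Matrix.trace_one, Fintype.card_fin,
      smul_eq_mul] at this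
    linear_combination this
  have hT1 : T.trace = 1 ∨ T.trace = -1 := by
    have hfac : (c - 2) * (c + 1) = 0 := by linear_combination hcc
    rcases mul_eq_zero.1 hfac with h | h
    · left
      have hc2 : c = 2 := by linear_combination h
      have hUe : U = (2 : ℂ) • 1 - T := by rw [← hc2, ← hc]; abel
      have hTone : T = 1 := by
        have e1 := hTU
        rw [hUe, mul_sub, mul_smul_comm, mul_one] at e1
        change (2 : ℂ) • T - U = 1 at e1
        rw [hUe] at e1
        have e2 : T = (1 / 3 : ℂ) • ((2 : ℂ) • T - ((2 : ℂ) • 1 - T)) + (2 / 3 : ℂ) • 1 := by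
          module
        rw [e2, e1]
        module
      have hn1 : n ≤ 1 := by
        obtain ⟨d, hd⟩ := hgood W (by rw [hTone, mul_one, one_mul]) rfl
        apply dim_one
        intro X
        apply hgood X
        · rw [hTone, mul_one, one_mul]
        · rw [hd, mul_smul_comm, smul_mul_assoc, mul_one, one_mul]
      have hn' : n = 1 := by omega
      rw [hTone, Matrix.trace_one, Fintype.card_fin, hn']
      norm_num
    · right
      have hc1 : c = -1 := by linear_combination h
      have hn2 : n = 2 := by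
        apply dim_two hn (T - U) W hW
        · have e1 : (T - U) * (T - U) = (T + U) - (2 : ℂ) • 1 := by
            rw [sub_mul, mul_sub, mul_sub, hTU, hUT, hUU]
            change U - 1 - (1 - T) = _
            module
          rw [e1, hc, hc1]
          module
        · rw [mul_sub, sub_mul, hWT, hWU]
          abel
        · intro Y hY1 hY2
          apply hgood Y _ hY2
          have hTe : T = (1 / 2 : ℂ) • ((T + U) + (T - U)) := by module
          rw [hTe, mul_smul_comm, smul_mul_assoc, mul_add, add_mul, hY1, hc, mul_smul_comm,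
            smul_mul_assoc, mul_one, one_mul]
      have hn3 : (n : ℂ) = 2 := by exact_mod_cast hn2
      rw [hn3, hc1] at htr
      linear_combination htr / 2
  have he1 : e = 1 ∨ e = -1 := mul_self_eq_one_iff.1 hee
  rw [hval]
  rcases he1 with rfl | rfl <;> rcases hT1 with h | h <;> rw [h] <;> norm_num

end Pool.Agent.V11205.SubN
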